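import Pool.Agent.Helper59.Wav.Defs

/-!
# Lattice sums and powers of expansive matrices
-/

open MeasureTheory Filter Topology
open scoped FourierTransform RealInnerProductSpace Matrix

noncomputable section



namespace Wav

section Lattice

private theorem lat_mem {n : ℕ} (k : Fin n → ℤ) : (ivec k : E n) ∈
    Submodule.span ℤ (Set.range (EuclideanSpace.basisFun (Fin n) ℝ).toBasis) := by
  have h1 : (ivec k : E n) = ∑ i, k i • (EuclideanSpace.basisFun (Fin n) ℝ).toBasis i := by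
    ext j
    simp [ivec, Pi.single_apply]
  rw [h1]
  exact Submodule.sum_mem _ fun i _ => Submodule.smul_mem _ _ (Submodule.subset_span ⟨i, rfl⟩)

private theorem lat_inj {n : ℕ} : Function.Injective (ivec : (Fin n → ℤ) → E n) := by
  intro k l h
  funext i
  have := congrArg (fun x : E n => x.ofLp i) h
  simpa [ivec] using this

private theorem lat_rank (n : ℕ) (L : Submodule ℤ (E n)) [DiscreteTopology L]
    [IsZLattice ℝ L] : Module.finrank ℤ L = n := by
  have := ZLattice.rank ℝ L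
  rw [this]
  exact finrank_euclideanSpace_fin

private theorem lat_gen (n : ℕ) (L : Submodule ℤ (E n)) (σ : ℝ) [DiscreteTopology L]
    [IsZLattice ℝ L] (h : (-σ) < -Module.finrank ℤ L) : Summable fun z : L => ‖z‖ ^ (-σ) :=
  ZLattice.summable_norm_rpow L (-σ) h

private theorem lat_comp (n : ℕ) (L : Submodule ℤ (E n)) (σ : ℝ)
    (hL : ∀ k : Fin n → ℤ, (ivec k : E n) ∈ L) (h1 : Summable fun z : L => ‖z‖ ^ (-σ))
    (h2 : Function.Injective (fun k : Fin n → ℤ => (⟨ivec k, hL k⟩ : L))) :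
    Summable fun k : Fin n → ℤ => ‖(ivec k : E n)‖ ^ (-σ) := by
  have h3 := h1.comp_injective h2
  simpa [Function.comp_def] using h3

private theorem lat_inj2 (n : ℕ) (L : Submodule ℤ (E n))
    (hL : ∀ k : Fin n → ℤ, (ivec k : E n) ∈ L) :
    Function.Injective (fun k : Fin n → ℤ => (⟨ivec k, hL k⟩ : L)) := by
  intro k l h
  have h' : (ivec k : E n) = ivec l := Subtype.ext_iff.mp h
  exact lat_inj h'

private theorem lat_summable0 (n : ℕ) (σ : ℝ) (hσ : (n : ℝ) < σ) :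
    Summable fun k : Fin n → ℤ => ‖(ivec k : E n)‖ ^ (-σ) :=
  lat_comp n (Submodule.span ℤ (Set.range (EuclideanSpace.basisFun (Fin n) ℝ).toBasis)) σ lat_mem
    (lat_gen n _ σ (by rw [lat_rank]; linarith)) (lat_inj2 n _ lat_mem)

private theorem lat_summable1 (n : ℕ) (σ : ℝ) (hσ : (n : ℝ) < σ) :
    Summable fun k : Fin n → ℤ => (1 + ‖(ivec k : E n)‖) ^ (-σ) := by
  classical
  have hσ0 : 0 < σ := lt_of_le_of_lt (Nat.cast_nonneg n) hσ
  have h1 : Summable fun k : Fin n → ℤ => (if k = 0 then (1 : ℝ) else 0) :=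
    summable_of_ne_finset_zero (s := {0}) fun k hk => if_neg (by simpa using hk)
  refine Summable.of_nonneg_of_le (fun k => by positivity) (fun k => ?_)
    ((lat_summable0 n σ hσ).add h1)
  by_cases hk : k = 0
  · subst hk
    rw [if_pos rfl]
    have h0 : (ivec (0 : Fin n → ℤ) : E n) = 0 := by
      ext j
      simp [ivec]
    rw [h0, norm_zero, add_zero, Real.one_rpow, Real.zero_rpow (by linarith)]
    norm_num
  · rw [if_neg hk, add_zero]
    have h0 : 0 < ‖(ivec k : E n)‖ := by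
      rw [norm_pos_iff]
      intro h
      apply hk
      apply lat_inj
      rw [h]
      ext j
      simp [ivec]
    exact Real.rpow_le_rpow_of_nonpos h0 (by linarith) (by linarith)

/-- Module L1. Uniform bound of lattice sums. -/
theorem lattice_sum (n : ℕ) (σ : ℝ) (hσ : (n : ℝ) < σ) :
    ∃ C : ℝ, ∀ η : E n, (Summable fun k : Fin n → ℤ => (1 + ‖η + ivec k‖) ^ (-σ)) ∧
      ∑' k : Fin n → ℤ, (1 + ‖η + ivec k‖) ^ (-σ) ≤ C := by
  have hσ0 : 0 < σ := lt_of_le_of_lt (Nat.cast_nonneg n) hσ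
  set R : ℝ := Real.sqrt n with hR
  have hR0 : 0 ≤ R := Real.sqrt_nonneg _
  have hs := lat_summable1 n σ hσ
  have key : ∀ η' : E n, ‖η'‖ ≤ R → ∀ k : Fin n → ℤ,
      (1 + ‖η' + ivec k‖) ^ (-σ) ≤ (1 + R) ^ σ * (1 + ‖(ivec k : E n)‖) ^ (-σ) := by
    intro η' hη' k
    have h1 : ‖(ivec k : E n)‖ ≤ ‖η' + ivec k‖ + R := by
      have h2 : (ivec k : E n) = (η' + ivec k) - η' := by abel
      calc ‖(ivec k : E n)‖ = ‖(η' + ivec k) - η'‖ := by rw [← h2]
        _ ≤ ‖η' + ivec k‖ + ‖η'‖ := norm_sub_le _ _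
        _ ≤ _ := by linarith
    have h3 : 1 + ‖(ivec k : E n)‖ ≤ (1 + R) * (1 + ‖η' + ivec k‖) := by
      have := norm_nonneg (η' + ivec k)
      nlinarith
    have h4 : ((1 + R) * (1 + ‖η' + ivec k‖)) ^ (-σ) ≤ (1 + ‖(ivec k : E n)‖) ^ (-σ) :=
      Real.rpow_le_rpow_of_nonpos (by positivity) h3 (by linarith)
    rw [Real.mul_rpow (by positivity) (by positivity)] at h4
    have h5 : (1 + R) ^ σ * (1 + R) ^ (-σ) = 1 := by
      rw [← Real.rpow_add (by positivity)]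
      simp
    calc (1 + ‖η' + ivec k‖) ^ (-σ) =
        (1 + R) ^ σ * ((1 + R) ^ (-σ) * (1 + ‖η' + ivec k‖) ^ (-σ)) := by
          rw [← mul_assoc, h5, one_mul]
      _ ≤ _ := mul_le_mul_of_nonneg_left h4 (by positivity)
  refine ⟨(1 + R) ^ σ * ∑' k : Fin n → ℤ, (1 + ‖(ivec k : E n)‖) ^ (-σ), fun η => ?_⟩
  set m : Fin n → ℤ := fun i => round (η.ofLp i) with hm
  set η' : E n := η - ivec m with hη'
  have hn : ‖η'‖ ≤ R := by
    rw [EuclideanSpace.norm_eq]
    refine Real.sqrt_le_sqrt ?_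
    calc ∑ i, ‖η'.ofLp i‖ ^ 2 ≤ ∑ _i : Fin n, (1 : ℝ) := by
          refine Finset.sum_le_sum fun i _ => ?_
          have h1 : η'.ofLp i = η.ofLp i - round (η.ofLp i) := by
            simp [hη', hm, ivec]
          rw [h1, Real.norm_eq_abs]
          have h2 := abs_sub_round (η.ofLp i)
          have h3 := abs_nonneg (η.ofLp i - round (η.ofLp i))
          nlinarith
      _ = n := by simp
  have hadd : ∀ k : Fin n → ℤ, η + ivec k = η' + ivec (m + k) := by
    intro k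
    have h1 : (ivec (m + k) : E n) = ivec m + ivec k := by
      ext j
      simp [ivec]
    rw [h1, hη']
    abel
  have hs' : Summable fun k : Fin n → ℤ => (1 + ‖η' + ivec k‖) ^ (-σ) :=
    Summable.of_nonneg_of_le (fun k => by positivity) (key η' hn) (hs.mul_left _)
  have he : (fun k : Fin n → ℤ => (1 + ‖η + ivec k‖) ^ (-σ)) =
      (fun k : Fin n → ℤ => (1 + ‖η' + ivec k‖) ^ (-σ)) ∘ (Equiv.addLeft m) := by
    funext k
    simp only [Function.comp, Equiv.coe_addLeft, hadd]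
  constructor
  · rw [he]
    exact (Equiv.addLeft m).summable_iff.mpr hs'
  · rw [he]
    have h1 := (Equiv.addLeft m).tsum_eq fun k : Fin n → ℤ => (1 + ‖η' + ivec k‖) ^ (-σ)
    have h2 : ∑' k, ((fun k : Fin n → ℤ => (1 + ‖η' + ivec k‖) ^ (-σ)) ∘ (Equiv.addLeft m)) k =
        ∑' k : Fin n → ℤ, (1 + ‖η' + ivec k‖) ^ (-σ) := h1
    rw [h2, ← tsum_mul_left]
    exact hs'.tsum_le_tsum (key η' hn) (hs.mul_left _)

end Lattice

section Expansive

variable {n : ℕ} {A : Matrix (Fin n) (Fin n) ℝ}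

private theorem lat_unit (hA : Expansive A) : IsUnit (A.map (algebraMap ℝ ℂ)) := by
  by_contra h
  have h0 : (0 : ℂ) ∈ spectrum ℂ (A.map (algebraMap ℝ ℂ)) := spectrum.zero_mem ℂ h
  have := hA 0 h0
  rw [norm_zero] at this
  linarith

theorem expansive_det (hA : Expansive A) : A.det ≠ 0 := by
  have h1 := (Matrix.isUnit_iff_isUnit_det _).mp (lat_unit hA)
  intro h0
  have h2 : (A.map (algebraMap ℝ ℂ)).det = algebraMap ℝ ℂ A.det :=
    (RingHom.map_det (algebraMap ℝ ℂ) A).symm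
  rw [h2, h0, map_zero] at h1
  exact not_isUnit_zero h1

theorem expansive_transpose (hA : Expansive A) : Expansive Aᵀ := by
  intro z hz
  apply hA z
  rw [spectrum.mem_iff] at hz ⊢
  intro h
  apply hz
  have e : algebraMap ℂ (Matrix (Fin n) (Fin n) ℂ) z - Aᵀ.map (algebraMap ℝ ℂ) =
      (algebraMap ℂ (Matrix (Fin n) (Fin n) ℂ) z - A.map (algebraMap ℝ ℂ))ᵀ := by
    rw [Matrix.transpose_sub, Matrix.transpose_map]
    congr 1
    ext i j
    simp [Matrix.algebraMap_matrix_apply, eq_comm]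
  rw [e, Matrix.isUnit_transpose]
  exact h

open scoped Matrix.Norms.L2Operator in
private theorem lat_pow_bound [Nonempty (Fin n)] (B : Matrix (Fin n) (Fin n) ℂ)
    (hB : ∀ z ∈ spectrum ℂ B, ‖z‖ < 1) :
    ∃ C r : ℝ, 0 < C ∧ 0 < r ∧ r < 1 ∧ ∀ m : ℕ, ‖B ^ m‖ ≤ C * r ^ m := by
  have : CompleteSpace (Matrix (Fin n) (Fin n) ℂ) := FiniteDimensional.complete ℂ _
  have h1 : spectralRadius ℂ B < ((1 : NNReal) : ENNReal) :=
    spectrum.spectralRadius_lt_of_forall_lt B (r := 1) fun z hz => by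
      rw [← NNReal.coe_lt_coe, coe_nnnorm, NNReal.coe_one]
      exact hB z hz
  obtain ⟨r, hr1, hr2⟩ := ENNReal.lt_iff_exists_nnreal_btwn.mp h1
  have hr0 : 0 < r := by
    have := lt_of_le_of_lt (zero_le) hr1
    exact_mod_cast this
  have hr3 : r < 1 := by exact_mod_cast hr2
  have h2 := (spectrum.pow_nnnorm_pow_one_div_tendsto_nhds_spectralRadius B).eventually
    (gt_mem_nhds hr1)
  obtain ⟨K, hK⟩ := eventually_atTop.mp h2
  have h3 : ∀ k, max K 1 ≤ k → ‖B ^ k‖ ≤ (r : ℝ) ^ k := by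
    intro k hk
    have hk1 : 1 ≤ k := (le_max_right _ _).trans hk
    have hk0 : (0 : ℝ) < k := by exact_mod_cast hk1
    have h4 := hK k ((le_max_left _ _).trans hk)
    rw [one_div, ENNReal.rpow_inv_lt_iff hk0, ENNReal.rpow_natCast] at h4
    have h5 : ‖B ^ k‖₊ < r ^ k := by exact_mod_cast h4
    have h6 : ((‖B ^ k‖₊ : NNReal) : ℝ) < ((r ^ k : NNReal) : ℝ) := by exact_mod_cast h5
    simpa using h6.le
  have hr0' : (0 : ℝ) < r := by exact_mod_cast hr0
  refine ⟨1 + ∑ k ∈ Finset.range (max K 1), ‖B ^ k‖ / (r : ℝ) ^ k, r, ?_, hr0',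
    by exact_mod_cast hr3, fun m => ?_⟩
  · have : 0 ≤ ∑ k ∈ Finset.range (max K 1), ‖B ^ k‖ / (r : ℝ) ^ k :=
      Finset.sum_nonneg fun k _ => by positivity
    linarith
  · have hs : 0 ≤ ∑ k ∈ Finset.range (max K 1), ‖B ^ k‖ / (r : ℝ) ^ k :=
      Finset.sum_nonneg fun k _ => by positivity
    have hrm : 0 < (r : ℝ) ^ m := by positivity
    by_cases hm : max K 1 ≤ m
    · have := h3 m hm
      nlinarith
    · have hm' : m ∈ Finset.range (max K 1) := Finset.mem_range.mpr (not_le.mp hm)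
      have h4 := Finset.single_le_sum (f := fun k => ‖B ^ k‖ / (r : ℝ) ^ k)
        (fun k _ => by positivity) hm'
      have h5 : ‖B ^ m‖ = ‖B ^ m‖ / (r : ℝ) ^ m * (r : ℝ) ^ m := by field_simp
      rw [h5]
      refine mul_le_mul_of_nonneg_right ?_ hrm.le
      linarith

/-- Module L2. Growth of the powers of an expansive matrix. -/
theorem expansive_growth (hA : Expansive A) :
    ∃ C ρ : ℝ, 0 < C ∧ 1 < ρ ∧ ∀ (m : ℕ) (x : E n), ρ ^ m * ‖x‖ ≤ C * ‖act (A ^ m) x‖ := by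
  rcases isEmpty_or_nonempty (Fin n) with hn | hn
  · refine ⟨1, 2, one_pos, one_lt_two, fun m x => ?_⟩
    have h1 : ∀ y : E n, ‖y‖ = 0 := fun y => by
      have : y = 0 := Subsingleton.elim _ _
      rw [this, norm_zero]
    rw [h1, h1]
    simp
  obtain ⟨U, hU⟩ := lat_unit hA
  set B : Matrix (Fin n) (Fin n) ℂ := ((U⁻¹ : (Matrix (Fin n) (Fin n) ℂ)ˣ) :
    Matrix (Fin n) (Fin n) ℂ) with hBdef
  have hB : ∀ z ∈ spectrum ℂ B, ‖z‖ < 1 := by
    intro z hz
    have h1 : z⁻¹ ∈ spectrum ℂ (A.map (algebraMap ℝ ℂ)) := by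
      rw [← hU]
      have h2 : z ∈ (spectrum ℂ (U : Matrix (Fin n) (Fin n) ℂ))⁻¹ := by
        rw [spectrum.map_inv]
        exact hz
      exact h2
    have h2 := hA _ h1
    rw [norm_inv] at h2
    by_contra h3
    have h4 : ‖z‖⁻¹ ≤ 1 := inv_le_one_of_one_le₀ (not_lt.mp h3)
    linarith
  obtain ⟨C, r, hC, hr0, hr1, hbound⟩ := lat_pow_bound B hB
  refine ⟨C, r⁻¹, hC, (one_lt_inv₀ hr0).mpr hr1, fun m x => ?_⟩
  -- complexification
  have hnorm : ∀ y : E n, ‖(WithLp.toLp 2 fun i => (y.ofLp i : ℂ) : EuclideanSpace ℂ (Fin n))‖ =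
      ‖y‖ := by
    intro y
    rw [EuclideanSpace.norm_eq, EuclideanSpace.norm_eq]
    congr 1
    refine Finset.sum_congr rfl fun i _ => ?_
    simp
  have hmap : ∀ M : Matrix (Fin n) (Fin n) ℝ, ∀ y : E n,
      (M.map (algebraMap ℝ ℂ)) *ᵥ (fun i => (y.ofLp i : ℂ)) =
        fun i => ((act M y).ofLp i : ℂ) := by
    intro M y
    funext i
    simp [act, Matrix.mulVec, dotProduct]
  have hpow : (A ^ m).map (algebraMap ℝ ℂ) = (A.map (algebraMap ℝ ℂ)) ^ m := by
    have := map_pow (RingHom.mapMatrix (m := Fin n) (algebraMap ℝ ℂ)) A m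
    simpa using this
  have hBA : B ^ m * (A ^ m).map (algebraMap ℝ ℂ) = 1 := by
    rw [hpow, ← hU, hBdef, ← Units.val_pow_eq_pow_val, ← Units.val_pow_eq_pow_val,
      ← Units.val_mul, inv_pow, inv_mul_cancel, Units.val_one]
  have hx : (B ^ m) *ᵥ (fun i => ((act (A ^ m) x).ofLp i : ℂ)) = fun i => (x.ofLp i : ℂ) := by
    rw [← hmap, Matrix.mulVec_mulVec, hBA, Matrix.one_mulVec]
  have h1 := Matrix.l2_opNorm_mulVec (B ^ m)
    (WithLp.toLp 2 fun i => ((act (A ^ m) x).ofLp i : ℂ) : EuclideanSpace ℂ (Fin n))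
  have h2 : ‖x‖ ≤ C * r ^ m * ‖act (A ^ m) x‖ := by
    rw [← hnorm x, ← hnorm (act (A ^ m) x), ← hx]
    refine le_trans ?_ (mul_le_mul_of_nonneg_right (hbound m) (norm_nonneg _))
    exact h1
  rw [inv_pow]
  have hrm : 0 < r ^ m := by positivity
  calc (r ^ m)⁻¹ * ‖x‖ ≤ (r ^ m)⁻¹ * (C * r ^ m * ‖act (A ^ m) x‖) :=
        mul_le_mul_of_nonneg_left h2 (by positivity)
    _ = C * ‖act (A ^ m) x‖ := by field_simp

end Expansive

end Wav
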